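import Pool.Agent.H369.AS.Stm
import Pool.Graph.R_seed8.TH549.CK.P22

/-!
# The order along the diagonal of theta functions
-/

set_option autoImplicit false

namespace Pool.Agent.H740.AS

open TensorProduct Pool.Agent.TH549.CK Pool.Agent.H369.TH Pool.Agent.H369.CFG Pool.Agent.H369.SM
open Pool.Agent.H369.PL Pool.Agent.H369.RE Pool.Agent.H369.CB Pool.Agent.H369.AS

namespace DIA

theorem coe_hs {k : Type} [Field k] (l : ℕ) (p : PowerSeries k) :
    ((hs l p : PowerSeries k) : LaurentSeries k) =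
      LaurentSeries.hasseDeriv k l (p : LaurentSeries k) := by
  ext n
  rw [LaurentSeries.hasseDeriv_coeff]
  rcases lt_or_ge n 0 with hn | hn
  · rw [PowerSeries.coeff_coe, if_pos hn]
    rcases lt_or_ge (n + l) 0 with hl | hl
    · rw [PowerSeries.coeff_coe, if_pos hl, smul_zero]
    · have h1 : Ring.choose (n + l : ℤ) l = 0 := by
        obtain ⟨m, hm⟩ := Int.eq_ofNat_of_zero_le hl
        rw [hm, Ring.choose_natCast, Nat.choose_eq_zero_of_lt (by omega)]
        rfl
      rw [h1, zero_smul]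
  · obtain ⟨m, rfl⟩ := Int.eq_ofNat_of_zero_le hn
    have h2 : ((m : ℤ) + (l : ℤ)) = ((m + l : ℕ) : ℤ) := by push_cast; ring
    rw [h2, Ring.choose_natCast, PowerSeries.coeff_coe, PowerSeries.coeff_coe,
      if_neg (by omega), if_neg (by omega), Int.natAbs_natCast, Int.natAbs_natCast, hs,
      PowerSeries.coeff_mk, natCast_zsmul, nsmul_eq_mul]

section
variable {Γ K : Type} [AddCommGroup Γ] [LinearOrder Γ] [IsOrderedAddMonoid Γ] [Field K]

/-- the expansion as a ring homomorphism -/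
noncomputable def TLh (a : Pt Γ K) : Ent Γ K →+* LaurentSeries (HG Γ K) :=
  (HahnSeries.ofPowerSeries ℤ (HG Γ K)).comp (T a)

theorem TLh_apply (a : Pt Γ K) (f : Ent Γ K) : TLh a f = TL a f := rfl

theorem TLh_cst (a : Pt Γ K) (c : HG Γ K) : TLh a (cst c) = HahnSeries.C c := by
  show HahnSeries.ofPowerSeries ℤ (HG Γ K) (T a (cst c)) = _
  rw [T_cst, HahnSeries.ofPowerSeries_C]

theorem TLh_inj (a : Pt Γ K) (h : Function.Injective (T a)) : Function.Injective (TLh a) :=
  HahnSeries.ofPowerSeries_injective.comp h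

theorem dv_tmul (l : ℕ) (g : HG Γ K) (f f' : Ent Γ K) :
    dv l (g • (f ⊗ₜ[HG Γ K] f')) = cst g * (Dl l f * f') := by
  rw [map_smul]
  rfl

end

end DIA

open DIA in
theorem dia (_h1 : S_rules) (h2 : S_T) : S_dia := by
  intro Γ K _ _ _ _ _ P hP o n d γ f h hfr g hg l hl
  obtain ⟨hinj, -, -, hDl, -, -, -⟩ := h2 Γ K
  apply TLh_inj o (hinj o)
  rw [map_zero, map_sum, map_sum]
  set W : LaurentSeries (HG Γ K) := TL o (theta P o) ^ n with hW
  set U : LaurentSeries (HG Γ K) := (((1 + PowerSeries.X) ^ l : PowerSeries (HG Γ K)) :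
    LaurentSeries (HG Γ K)) with hU
  have hf : ∀ a, TLh o (f a) = h a * W := fun a => (hfr a).2.symm
  have hD : ∀ a, TLh o (Dl l (f a)) = U * ∑ ij ∈ Finset.HasAntidiagonal.antidiagonal l,
      LaurentSeries.hasseDeriv (HG Γ K) ij.1 (h a) * LaurentSeries.hasseDeriv (HG Γ K) ij.2 W := by
    intro a
    rw [← P22.hasse_mul, ← hf a]
    show HahnSeries.ofPowerSeries ℤ (HG Γ K) (T o (Dl l (f a))) = _
    rw [hDl, map_mul, hU]
    congr 1
    exact coe_hs l (T o (f a))
  have hterm : ∀ a, TLh o (dv l (∑ b, g a b • (f a ⊗ₜ[HG Γ K] f b))) =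
      ∑ ij ∈ Finset.HasAntidiagonal.antidiagonal l, U * W *
        LaurentSeries.hasseDeriv (HG Γ K) ij.2 W * ∑ b, HahnSeries.C (g a b) *
          LaurentSeries.hasseDeriv (HG Γ K) ij.1 (h a) * h b := by
    intro a
    rw [map_sum, map_sum]
    simp_rw [Finset.mul_sum]
    rw [Finset.sum_comm]
    refine Finset.sum_congr rfl fun b _ => ?_
    rw [dv_tmul, map_mul, map_mul, TLh_cst, hD a, hf b, Finset.mul_sum, Finset.sum_mul,
      Finset.mul_sum]
    refine Finset.sum_congr rfl fun ij _ => ?_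
    ring
  rw [Finset.sum_congr rfl fun a _ => hterm a, Finset.sum_comm]
  refine Finset.sum_eq_zero fun ij hij => ?_
  rw [← Finset.mul_sum, hg ij.1 ?_, mul_zero]
  rw [Finset.HasAntidiagonal.mem_antidiagonal] at hij
  omega

end Pool.Agent.H740.AS
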